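import Mathlib

set_option autoImplicit false

namespace Pool.Agent.Coarse

open unitInterval Complex

/-- Retraction of the line onto the unit interval. -/
noncomputable def pr : C(ℝ, I) := ⟨Set.projIcc 0 1 zero_le_one, continuous_projIcc⟩

lemma pr_coe (t : I) : pr (t : ℝ) = t := Set.projIcc_val zero_le_one t

/-- Lifts through the exponential over a square. -/
lemma exists_lift_sq (F : C(I × I, ℂ)) (hF : ∀ x, F x ≠ 0) :
    ∃ L : C(I × I, ℂ), ∀ x, exp (L x) = F x := by
  let F' : C(ℝ × ℝ, ℂ) := ⟨fun x => F (pr x.1, pr x.2), by fun_prop⟩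
  obtain ⟨L, ⟨-, hL⟩, -⟩ := isCoveringMapOn_exp.existsUnique_continuousMap_lifts F'
    (a₀ := (0, 0)) (e₀ := log (F' (0, 0))) (exp_log (hF _)) (fun a => by simpa [F'] using hF _)
  refine ⟨⟨fun x => L ((x.1 : ℝ), (x.2 : ℝ)), by fun_prop⟩, fun x => ?_⟩
  have := congrFun hL ((x.1 : ℝ), (x.2 : ℝ))
  simp only [Function.comp_apply, F', ContinuousMap.coe_mk, pr_coe] at this
  simpa using this

/-- Two lifts of one path differ by a constant. -/
lemma lift_unique (L L' : C(I, ℂ)) (h : ∀ t, exp (L t) = exp (L' t)) :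
    L 1 - L 0 = L' 1 - L' 0 := by
  let f : C(ℝ, ℂ) := ⟨fun t => exp (L (pr t)), by fun_prop⟩
  obtain ⟨F, -, hF⟩ := isCoveringMapOn_exp.existsUnique_continuousMap_lifts f
    (a₀ := 0) (e₀ := L (pr 0)) rfl (fun a => by simp [f])
  have h1 := hF ⟨fun t => L (pr t), by fun_prop⟩ ⟨rfl, rfl⟩
  have hp0 : pr 0 = 0 := by simpa using pr_coe 0
  have hp1 : pr 1 = 1 := by simpa using pr_coe 1
  have h0 : exp (L 0 - L' 0) = 1 := by rw [exp_sub, h 0, div_self (exp_ne_zero _)]
  have h2 := hF ⟨fun t => L' (pr t) + (L 0 - L' 0), by fun_prop⟩ ⟨by simp [hp0], by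
    funext t
    simp only [f, Function.comp_apply, ContinuousMap.coe_mk]
    rw [exp_add, h0, mul_one, h]⟩
  have h3 := DFunLike.congr_fun (h1.trans h2.symm) 1
  simp only [ContinuousMap.coe_mk, hp1] at h3
  rw [h3]; ring

open Classical in
/-- the increment of the logarithm along a path -/
noncomputable def inc (g : I → ℂ) : ℂ :=
  if h : ∃ L : C(I, ℂ), ∀ t, exp (L t) = g t then h.choose 1 - h.choose 0 else 0

lemma inc_eq (g : I → ℂ) (L : C(I, ℂ)) (hL : ∀ t, exp (L t) = g t) : inc g = L 1 - L 0 := by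
  have h : ∃ L : C(I, ℂ), ∀ t, exp (L t) = g t := ⟨L, hL⟩
  rw [inc, dif_pos h]
  exact lift_unique _ _ (fun t => by rw [h.choose_spec t, hL t])

lemma inc_neg (g : I → ℂ) (L : C(I, ℂ)) (hL : ∀ t, exp (L t) = g t) :
    inc (fun t => - g t) = inc g := by
  rw [inc_eq g L hL, inc_eq (fun t => - g t) (⟨fun t => L t + Real.pi * Complex.I, by fun_prop⟩)
    (fun t => by
      simp only [ContinuousMap.coe_mk]
      rw [exp_add, hL t, exp_pi_mul_I]; ring)]
  simp

/-- The fundamental relation for two disjoint arcs. -/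
lemma inc_rel (γ δ : C(I, ℂ)) (h : ∀ s t, γ s ≠ δ t) :
    inc (fun s => γ s - δ 0) - inc (fun s => γ s - δ 1)
      + inc (fun t => δ t - γ 1) - inc (fun t => δ t - γ 0) = 0 := by
  obtain ⟨L, hL⟩ := exists_lift_sq ⟨fun x => γ x.1 - δ x.2, by fun_prop⟩
    (fun x => sub_ne_zero.mpr (h x.1 x.2))
  simp only [ContinuousMap.coe_mk] at hL
  have e1 : inc (fun s => γ s - δ 0) = L (1, 0) - L (0, 0) :=
    inc_eq _ ⟨fun s => L (s, 0), by fun_prop⟩ (fun s => hL (s, 0))
  have e2 : inc (fun s => γ s - δ 1) = L (1, 1) - L (0, 1) :=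
    inc_eq _ ⟨fun s => L (s, 1), by fun_prop⟩ (fun s => hL (s, 1))
  have e3 : inc (fun t => δ t - γ 1) = L (1, 1) - L (1, 0) := by
    have := inc_neg (fun t => γ 1 - δ t) ⟨fun t => L (1, t), by fun_prop⟩ (fun t => hL (1, t))
    simp only [neg_sub] at this
    rw [this]
    exact inc_eq _ ⟨fun t => L (1, t), by fun_prop⟩ (fun t => hL (1, t))
  have e4 : inc (fun t => δ t - γ 0) = L (0, 1) - L (0, 0) := by
    have := inc_neg (fun t => γ 0 - δ t) ⟨fun t => L (0, t), by fun_prop⟩ (fun t => hL (0, t))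
    simp only [neg_sub] at this
    rw [this]
    exact inc_eq _ ⟨fun t => L (0, t), by fun_prop⟩ (fun t => hL (0, t))
  rw [e1, e2, e3, e4]; ring

/-- Logarithm of a path that avoids zero exists. -/
lemma exists_lift_path (γ : C(I, ℂ)) (hγ : ∀ t, γ t ≠ 0) :
    ∃ L : C(I, ℂ), ∀ t, exp (L t) = γ t := by
  obtain ⟨L, hL⟩ := exists_lift_sq ⟨fun x => γ x.1, by fun_prop⟩ (fun x => hγ x.1)
  exact ⟨⟨fun t => L (t, 0), by fun_prop⟩, fun t => hL (t, 0)⟩

section
variable {m : ℕ} (v : Fin m → ℂ)

/-- A choice of logarithm of the vector from `v x` to `v y`. -/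
noncomputable def lam (x y : Fin m) : ℂ :=
  if x < y then log (v y - v x) else log (v x - v y) + Real.pi * Complex.I

lemma exp_lam (hv : Function.Injective v) {x y : Fin m} (h : x ≠ y) :
    exp (lam v x y) = v y - v x := by
  unfold lam
  split_ifs with h1
  · exact exp_log (sub_ne_zero.mpr (fun e => h (hv e.symm)))
  · rw [exp_add, exp_pi_mul_I, exp_log (sub_ne_zero.mpr (fun e => h (hv e)))]; ring

/-- orientation sign -/
def sg (x y : Fin m) : ℤ := if x < y then 1 else -1

lemma lam_swap {x y : Fin m} (h : x ≠ y) :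
    lam v x y - lam v y x = - (sg x y : ℂ) * (Real.pi * Complex.I) := by
  unfold lam sg
  rcases lt_or_gt_of_ne h with h1 | h1
  · rw [if_pos h1, if_neg (not_lt.mpr h1.le), if_pos h1]; push_cast; ring
  · rw [if_neg (not_lt.mpr h1.le), if_pos h1, if_neg (not_lt.mpr h1.le)]; push_cast; ring

/-- `wind v γ a b c`: the integer correction of the increment of `γ` (from `v a` to `v b`) around
`v c`. -/
lemma exists_wind (hv : Function.Injective v) (γ : C(I, ℂ)) {a b c : Fin m}
    (h0 : γ 0 = v a) (h1 : γ 1 = v b) (hca : c ≠ a) (hcb : c ≠ b) (hγ : ∀ t, γ t ≠ v c) :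
    ∃ k : ℤ, inc (fun s => γ s - v c) = lam v c b - lam v c a + k * (2 * Real.pi * Complex.I) := by
  obtain ⟨L, hL⟩ := exists_lift_path ⟨fun t => γ t - v c, by fun_prop⟩
    (fun t => sub_ne_zero.mpr (hγ t))
  simp only [ContinuousMap.coe_mk] at hL
  rw [inc_eq _ L hL]
  have e1 : exp (L 1) = exp (lam v c b) := by rw [hL, exp_lam v hv hcb, h1]
  have e0 : exp (L 0) = exp (lam v c a) := by rw [hL, exp_lam v hv hca, h0]
  obtain ⟨k1, hk1⟩ := exp_eq_exp_iff_exists_int.mp e1
  obtain ⟨k0, hk0⟩ := exp_eq_exp_iff_exists_int.mp e0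
  exact ⟨k1 - k0, by rw [hk1, hk0]; push_cast; ring⟩

open Classical in
/-- integer correction, chosen -/
noncomputable def wind (γ : C(I, ℂ)) (a b c : Fin m) : ℤ :=
  if h : ∃ k : ℤ, inc (fun s => γ s - v c)
      = lam v c b - lam v c a + k * (2 * Real.pi * Complex.I) then h.choose else 0

lemma wind_spec (hv : Function.Injective v) (γ : C(I, ℂ)) {a b c : Fin m}
    (h0 : γ 0 = v a) (h1 : γ 1 = v b) (hca : c ≠ a) (hcb : c ≠ b) (hγ : ∀ t, γ t ≠ v c) :
    inc (fun s => γ s - v c)
      = lam v c b - lam v c a + wind v γ a b c * (2 * Real.pi * Complex.I) := by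
  have h := exists_wind v hv γ h0 h1 hca hcb hγ
  rw [wind, dif_pos h]
  exact h.choose_spec

/-- The integer relation of a pair of disjoint arcs `a → b` and `c → d`. -/
lemma wind_rel (hv : Function.Injective v) (γ δ : C(I, ℂ)) {a b c d : Fin m}
    (h0 : γ 0 = v a) (h1 : γ 1 = v b) (h0' : δ 0 = v c) (h1' : δ 1 = v d)
    (hac : a ≠ c) (had : a ≠ d) (hbc : b ≠ c) (hbd : b ≠ d) (h : ∀ s t, γ s ≠ δ t) :
    2 * (wind v γ a b c - wind v γ a b d + wind v δ c d b - wind v δ c d a)
      = sg c b - sg c a - sg d b + sg d a := by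
  have key := inc_rel γ δ h
  rw [h0, h1, h0', h1'] at key
  rw [wind_spec v hv γ h0 h1 hac.symm hbc.symm (fun t => by rw [← h0']; exact h t 0),
    wind_spec v hv γ h0 h1 had.symm hbd.symm (fun t => by rw [← h1']; exact h t 1),
    wind_spec v hv δ h0' h1' hbc hbd (fun t => by rw [← h1]; exact (h 1 t).symm),
    wind_spec v hv δ h0' h1' hac had (fun t => by rw [← h0]; exact (h 0 t).symm)] at key
  have s1 := lam_swap v hbc.symm
  have s2 := lam_swap v hac.symm
  have s3 := lam_swap v hbd.symm
  have s4 := lam_swap v had.symm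
  have hpi : (Real.pi * Complex.I : ℂ) ≠ 0 := by
    simp [Real.pi_ne_zero]
  have : ((2 * (wind v γ a b c - wind v γ a b d + wind v δ c d b - wind v δ c d a) : ℤ) : ℂ)
      * (Real.pi * Complex.I) = ((sg c b - sg c a - sg d b + sg d a : ℤ) : ℂ)
      * (Real.pi * Complex.I) := by
    push_cast
    linear_combination key - s1 + s2 + s3 - s4
  exact_mod_cast mul_right_cancel₀ hpi this

end

/-- `K₃,₃` has no drawing in the plane by arcs such that arcs of independent edges are disjoint. -/
theorem no_K33 (v : Fin 6 → ℂ) (hv : Function.Injective v) (γ : Fin 3 → Fin 3 → C(I, ℂ))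
    (h0 : ∀ i j, γ i j 0 = v (Fin.castLE (by omega) i))
    (h1 : ∀ i j, γ i j 1 = v (Fin.natAdd 3 j))
    (hd : ∀ i j k l, i ≠ k → j ≠ l → ∀ s t, γ i j s ≠ γ k l t) : False := by
  have key : ∀ i j k l : Fin 3, i ≠ k → j ≠ l → _ := fun i j k l hik hjl =>
    wind_rel v hv (γ i j) (γ k l) (h0 i j) (h1 i j) (h0 k l) (h1 k l)
      (by intro h; apply hik; simpa [Fin.ext_iff] using h)
      (by intro h; simp [Fin.ext_iff] at h; omega)
      (by intro h; simp [Fin.ext_iff] at h; omega)
      (by intro h; apply hjl; simpa [Fin.ext_iff] using h)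
      (hd i j k l hik hjl)
  have e01 := key 0 0 1 1 (by decide) (by decide)
  have e02 := key 0 0 1 2 (by decide) (by decide)
  have e03 := key 0 1 1 0 (by decide) (by decide)
  have e04 := key 0 1 1 2 (by decide) (by decide)
  have e05 := key 0 2 1 0 (by decide) (by decide)
  have e06 := key 0 2 1 1 (by decide) (by decide)
  have e11 := key 0 0 2 1 (by decide) (by decide)
  have e12 := key 0 0 2 2 (by decide) (by decide)
  have e13 := key 0 1 2 0 (by decide) (by decide)
  have e14 := key 0 1 2 2 (by decide) (by decide)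
  have e15 := key 0 2 2 0 (by decide) (by decide)
  have e16 := key 0 2 2 1 (by decide) (by decide)
  have e21 := key 1 0 2 1 (by decide) (by decide)
  have e22 := key 1 0 2 2 (by decide) (by decide)
  have e23 := key 1 1 2 0 (by decide) (by decide)
  have e24 := key 1 1 2 2 (by decide) (by decide)
  have e25 := key 1 2 2 0 (by decide) (by decide)
  have e26 := key 1 2 2 1 (by decide) (by decide)
  simp only [sg] at e01 e02 e03 e04 e05 e06 e11 e12 e13 e14 e15 e16 e21 e22 e23 e24 e25 e26
  simp [Fin.lt_def] at e01 e02 e03 e04 e05 e06 e11 e12 e13 e14 e15 e16 e21 e22 e23 e24 e25 e26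
  omega

/-- `K₅` has no drawing in the plane by arcs such that arcs of independent edges are disjoint. -/
theorem no_K5 (v : Fin 5 → ℂ) (hv : Function.Injective v) (γ : Fin 5 → Fin 5 → C(I, ℂ))
    (h0 : ∀ i j, i < j → γ i j 0 = v i)
    (h1 : ∀ i j, i < j → γ i j 1 = v j)
    (hd : ∀ i j k l, i < j → k < l → i ≠ k → i ≠ l → j ≠ k → j ≠ l →
      ∀ s t, γ i j s ≠ γ k l t) : False := by
  have key : ∀ i j k l : Fin 5, i < j → k < l → i ≠ k → i ≠ l → j ≠ k → j ≠ l → _ :=
    fun i j k l hij hkl hik hil hjk hjl =>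
    wind_rel v hv (γ i j) (γ k l) (h0 i j hij) (h1 i j hij) (h0 k l hkl) (h1 k l hkl)
      hik hil hjk hjl (hd i j k l hij hkl hik hil hjk hjl)
  have e00 := key 0 1 2 3 (by decide) (by decide) (by decide) (by decide) (by decide) (by decide)
  have e01 := key 0 1 2 4 (by decide) (by decide) (by decide) (by decide) (by decide) (by decide)
  have e02 := key 0 1 3 4 (by decide) (by decide) (by decide) (by decide) (by decide) (by decide)
  have e03 := key 0 2 1 3 (by decide) (by decide) (by decide) (by decide) (by decide) (by decide)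
  have e04 := key 0 2 1 4 (by decide) (by decide) (by decide) (by decide) (by decide) (by decide)
  have e05 := key 0 2 3 4 (by decide) (by decide) (by decide) (by decide) (by decide) (by decide)
  have e06 := key 0 3 1 2 (by decide) (by decide) (by decide) (by decide) (by decide) (by decide)
  have e07 := key 0 3 1 4 (by decide) (by decide) (by decide) (by decide) (by decide) (by decide)
  have e08 := key 0 3 2 4 (by decide) (by decide) (by decide) (by decide) (by decide) (by decide)
  have e09 := key 0 4 1 2 (by decide) (by decide) (by decide) (by decide) (by decide) (by decide)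
  have e10 := key 0 4 1 3 (by decide) (by decide) (by decide) (by decide) (by decide) (by decide)
  have e11 := key 0 4 2 3 (by decide) (by decide) (by decide) (by decide) (by decide) (by decide)
  have e12 := key 1 2 3 4 (by decide) (by decide) (by decide) (by decide) (by decide) (by decide)
  have e13 := key 1 3 2 4 (by decide) (by decide) (by decide) (by decide) (by decide) (by decide)
  have e14 := key 1 4 2 3 (by decide) (by decide) (by decide) (by decide) (by decide) (by decide)
  simp only [sg] at e00 e01 e02 e03 e04 e05 e06 e07 e08 e09 e10 e11 e12 e13 e14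
  simp [Fin.lt_def] at e00 e01 e02 e03 e04 e05 e06 e07 e08 e09 e10 e11 e12 e13 e14
  omega

end Pool.Agent.Coarse
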