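import Pool.Agent.Coarse.Defs
import Pool.Agent.Coarse.Topo

set_option autoImplicit false

namespace Pool.Agent.Coarse

open unitInterval

variable {V : Type}

/-- an oriented arc for an edge of a drawing -/
lemma exists_arc {p : V → ℂ} {γ : C(I, ℂ)} {u v : V}
    (h : ({γ 0, γ 1} : Set ℂ) = {p u, p v}) :
    ∃ P : Path (p u) (p v), Set.range P = Set.range γ := by
  rcases Set.pair_eq_pair_iff.mp h with ⟨h0, h1⟩ | ⟨h0, h1⟩
  · exact ⟨⟨γ, h0, h1⟩, rfl⟩
  · refine ⟨(⟨γ, h0, h1⟩ : Path (p v) (p u)).symm, ?_⟩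
    rw [Path.symm_range]
    rfl

/-- The combinatorial input: six vertices and nine paths. -/
lemma no_paths_K33 (p q : Fin 3 → ℂ) (hp : Function.Injective p) (hq : Function.Injective q)
    (hpq : ∀ i j, p i ≠ q j) (P : ∀ i j, Path (p i) (q j))
    (hd : ∀ i j k l, i ≠ k → j ≠ l → Disjoint (Set.range (P i j)) (Set.range (P k l))) : False := by
  refine no_K33 (Fin.append p q) ?_ (fun i j => (P i j).toContinuousMap) ?_ ?_ ?_
  · intro (x : Fin (3 + 3)) (y : Fin (3 + 3)) hxy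
    induction x using Fin.addCases with
    | left x =>
      induction y using Fin.addCases with
      | left y => rw [Fin.append_left, Fin.append_left] at hxy; rw [hp hxy]
      | right y => rw [Fin.append_left, Fin.append_right] at hxy; exact absurd hxy (hpq _ _)
    | right x =>
      induction y using Fin.addCases with
      | left y => rw [Fin.append_left, Fin.append_right] at hxy; exact absurd hxy.symm (hpq _ _)
      | right y => rw [Fin.append_right, Fin.append_right] at hxy; rw [hq hxy]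
  · intro i j
    have : (Fin.castLE (by omega) i : Fin 6) = Fin.castAdd 3 i := rfl
    rw [this, Fin.append_left]
    exact (P i j).source
  · intro i j
    rw [Fin.append_right]
    exact (P i j).target
  · intro i j k l hik hjl s t h
    exact Set.disjoint_left.mp (hd i j k l hik hjl) ⟨s, rfl⟩ ⟨t, h.symm⟩

/-- In a drawing, independent edges have disjoint arcs. -/
lemma disjoint_arcs {G : SimpleGraph V} {p : V → ℂ} {γ : Sym2 V → C(I, ℂ)}
    (h : ∀ e ∈ G.edgeSet, ∀ e' ∈ G.edgeSet, e ≠ e' →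
      ∀ z ∈ Set.range (γ e) ∩ Set.range (γ e'), ∃ w, w ∈ e ∧ w ∈ e' ∧ z = p w)
    {u v x y : V} (h1 : G.Adj u v) (h2 : G.Adj x y) (hux : u ≠ x) (huy : u ≠ y) (hvx : v ≠ x)
    (hvy : v ≠ y) : Disjoint (Set.range (γ s(u, v))) (Set.range (γ s(x, y))) := by
  rw [Set.disjoint_left]
  intro z hz hz'
  obtain ⟨w, hw, hw', -⟩ := h s(u, v) h1 s(x, y) h2
    (by intro he; rw [Sym2.eq_iff] at he; tauto) z ⟨hz, hz'⟩
  rw [Sym2.mem_iff] at hw hw'
  rcases hw with rfl | rfl <;> rcases hw' with h | h <;> tauto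

theorem not_planar_K33 (G : SimpleGraph V) (a b : Fin 3 → V) (ha : Function.Injective a)
    (hb : Function.Injective b) (hab : ∀ i j, a i ≠ b j) (hadj : ∀ i j, G.Adj (a i) (b j)) :
    ¬ IsPlanar G := by
  rintro ⟨p, γ, hp, -, hend, -, hdis⟩
  choose P hP using fun i j => exists_arc (hend (a i) (b j) (hadj i j))
  refine no_paths_K33 (p ∘ a) (p ∘ b) (hp.comp ha) (hp.comp hb) (fun i j h => hab i j (hp h)) P ?_
  intro i j k l hik hjl
  rw [hP, hP]
  exact disjoint_arcs hdis (hadj i j) (hadj k l) (fun h => hik (ha h)) (hab _ _) (hab _ _).symm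
    (fun h => hjl (hb h))

/-- `K₃,₃` with the edge `a 0 — b 0` subdivided by `w`. -/
theorem not_planar_K33_sub (G : SimpleGraph V) (a b : Fin 3 → V) (w : V)
    (ha : Function.Injective a)
    (hb : Function.Injective b) (hab : ∀ i j, a i ≠ b j) (haw : ∀ i, a i ≠ w)
    (hbw : ∀ j, b j ≠ w) (hadj : ∀ i j, (i ≠ 0 ∨ j ≠ 0) → G.Adj (a i) (b j))
    (h1 : G.Adj (a 0) w) (h2 : G.Adj w (b 0)) :
    ¬ IsPlanar G := by
  rintro ⟨p, γ, hp, -, hend, -, hdis⟩
  have hPP : ∀ i j, ∃ P : Path (p (a i)) (p (b j)),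
      Set.range P ⊆ if i = 0 ∧ j = 0 then Set.range (γ s(a 0, w)) ∪ Set.range (γ s(w, b 0))
        else Set.range (γ s(a i, b j)) := by
    intro i j
    by_cases h : i = 0 ∧ j = 0
    · obtain ⟨rfl, rfl⟩ := h
      obtain ⟨P1, hP1⟩ := exists_arc (hend _ _ h1)
      obtain ⟨P2, hP2⟩ := exists_arc (hend _ _ h2)
      refine ⟨P1.trans P2, ?_⟩
      rw [if_pos ⟨rfl, rfl⟩, Path.trans_range, hP1, hP2]
    · obtain ⟨P, hP⟩ := exists_arc (hend _ _ (hadj i j (by tauto)))
      exact ⟨P, by rw [if_neg h, hP]⟩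
  choose P hP using hPP
  refine no_paths_K33 (p ∘ a) (p ∘ b) (hp.comp ha) (hp.comp hb) (fun i j h => hab i j (hp h)) P ?_
  intro i j k l hik hjl
  refine Set.disjoint_of_subset (hP i j) (hP k l) ?_
  have hne : ∀ {i k : Fin 3}, i ≠ k → a i ≠ a k := fun h h' => h (ha h')
  have hne' : ∀ {i k : Fin 3}, i ≠ k → b i ≠ b k := fun h h' => h (hb h')
  by_cases h : i = 0 ∧ j = 0
  · obtain ⟨rfl, rfl⟩ := h
    rw [if_pos ⟨rfl, rfl⟩, if_neg (by tauto), Set.disjoint_union_left]
    have hkl := hadj k l (by tauto)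
    exact ⟨disjoint_arcs hdis h1 hkl (hne hik) (hab _ _) (haw _).symm (hbw _).symm,
      disjoint_arcs hdis h2 hkl (haw _).symm (hbw _).symm (hab _ _).symm (hne' hjl)⟩
  · by_cases h' : k = 0 ∧ l = 0
    · obtain ⟨rfl, rfl⟩ := h'
      rw [if_neg h, if_pos ⟨rfl, rfl⟩, Set.disjoint_union_right]
      have hkl := hadj i j (by tauto)
      exact ⟨disjoint_arcs hdis hkl h1 (hne hik) (haw _) (hab _ _).symm (hbw _),
        disjoint_arcs hdis hkl h2 (haw _) (hab _ _) (hbw _) (hne' hjl)⟩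
    · rw [if_neg h, if_neg h']
      exact disjoint_arcs hdis (hadj i j (by tauto)) (hadj k l (by tauto)) (hne hik) (hab _ _)
        (hab _ _).symm (hne' hjl)

theorem not_planar_K5 (G : SimpleGraph V) (c : Fin 5 → V) (hc : Function.Injective c)
    (hadj : ∀ i j, i ≠ j → G.Adj (c i) (c j)) : ¬ IsPlanar G := by
  rintro ⟨p, γ, hp, -, hend, -, hdis⟩
  have hPP : ∀ i j, i < j → ∃ P : C(I, ℂ), P 0 = p (c i) ∧ P 1 = p (c j) ∧
      Set.range P = Set.range (γ s(c i, c j)) := by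
    intro i j h
    obtain ⟨P, hP⟩ := exists_arc (hend _ _ (hadj i j h.ne))
    exact ⟨P.toContinuousMap, P.source, P.target, hP⟩
  choose! P h0 h1 hP using hPP
  refine no_K5 (p ∘ c) (hp.comp hc) P h0 h1 ?_
  intro i j k l hij hkl hik hil hjk hjl s t h
  have hne : ∀ {i k : Fin 5}, i ≠ k → c i ≠ c k := fun h h' => h (hc h')
  have hd := disjoint_arcs hdis (hadj i j hij.ne) (hadj k l hkl.ne) (hne hik) (hne hil) (hne hjk)
    (hne hjl)
  rw [← hP i j hij, ← hP k l hkl] at hd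
  exact Set.disjoint_left.mp hd ⟨s, rfl⟩ ⟨t, h.symm⟩

end Pool.Agent.Coarse
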