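import Mathlib

set_option autoImplicit false

namespace Pool.Agent.Coarse

/-- `G` is planar: it can be drawn in the plane `ℂ` with distinct points for distinct vertices and a
simple arc (injective continuous image of `[0,1]`) for every edge, joining the points of its two
ends, such that an arc passes through no further vertex point and two arcs of different edges meet
only in the point of a common end. -/
def IsPlanar {V : Type} (G : SimpleGraph V) : Prop :=
  ∃ (p : V → ℂ) (γ : Sym2 V → C(unitInterval, ℂ)),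
    Function.Injective p ∧
    (∀ e ∈ G.edgeSet, Function.Injective (γ e)) ∧
    (∀ u v, G.Adj u v → ({γ s(u, v) 0, γ s(u, v) 1} : Set ℂ) = {p u, p v}) ∧
    (∀ e ∈ G.edgeSet, ∀ w, p w ∈ Set.range (γ e) → w ∈ e) ∧
    (∀ e ∈ G.edgeSet, ∀ e' ∈ G.edgeSet, e ≠ e' →
      ∀ z ∈ Set.range (γ e) ∩ Set.range (γ e'), ∃ w, w ∈ e ∧ w ∈ e' ∧ z = p w)

/-- The coarseness of `G`: the largest `k` such that `G` has `k` pairwise edge-disjoint nonplanar
subgraphs. -/
noncomputable def coarseness {V : Type} (G : SimpleGraph V) : ℕ :=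
  sSup {k : ℕ | ∃ H : Fin k → G.Subgraph,
    (∀ i, ¬ IsPlanar (H i).coe) ∧ ∀ i j, i ≠ j → Disjoint (H i).edgeSet (H j).edgeSet}

end Pool.Agent.Coarse
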