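import Pool.Agent.Coarse.Tables

set_option autoImplicit false

namespace Pool.Agent.Coarse

/-- colour table of the decomposition of `K₂₅` minus the complete graph on `9, …, 24` -/
def T20 : List (List ℕ) :=
   [[0, 16, 17, 17, 13, 1, 13, 17, 13, 7, 1, 8, 16, 8, 7, 8, 7, 16, 20, 20, 20, 19, 19, 19, 1],
    [16, 0, 18, 2, 16, 14, 14, 14, 16, 7, 9, 2, 9, 18, 7, 18, 7, 9, 20, 20, 20, 19, 19, 19, 2],
    [17, 18, 0, 15, 3, 18, 18, 15, 15, 3, 9, 8, 9, 8, 17, 8, 17, 9, 20, 20, 20, 19, 19, 19, 3],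
    [17, 2, 15, 0, 2, 1, 2, 11, 10, 4, 1, 5, 11, 10, 17, 10, 17, 11, 4, 15, 5, 15, 5, 4, 1],
    [13, 16, 3, 2, 0, 3, 12, 3, 10, 4, 6, 2, 16, 10, 12, 10, 12, 16, 4, 6, 13, 6, 13, 4, 2],
    [1, 14, 18, 1, 3, 0, 12, 11, 1, 3, 6, 5, 11, 18, 12, 18, 12, 11, 14, 6, 5, 6, 5, 14, 3],
    [13, 14, 18, 2, 12, 12, 0, 11, 12, 7, 6, 2, 11, 18, 7, 18, 7, 11, 14, 6, 13, 6, 13, 14, 2],
    [17, 14, 15, 11, 3, 11, 11, 0, 10, 3, 9, 5, 9, 10, 17, 10, 17, 9, 14, 15, 5, 15, 5, 14, 3],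
    [13, 16, 15, 10, 10, 1, 12, 10, 0, 4, 1, 8, 16, 8, 12, 8, 12, 16, 4, 15, 13, 15, 13, 4, 1],
    [7, 7, 3, 4, 4, 3, 7, 3, 4, 0, 0, 0, 0, 0, 0, 0, 0, 0, 0, 0, 0, 0, 0, 0, 0],
    [1, 9, 9, 1, 6, 6, 6, 9, 1, 0, 0, 0, 0, 0, 0, 0, 0, 0, 0, 0, 0, 0, 0, 0, 0],
    [8, 2, 8, 5, 2, 5, 2, 5, 8, 0, 0, 0, 0, 0, 0, 0, 0, 0, 0, 0, 0, 0, 0, 0, 0],
    [16, 9, 9, 11, 16, 11, 11, 9, 16, 0, 0, 0, 0, 0, 0, 0, 0, 0, 0, 0, 0, 0, 0, 0, 0],
    [8, 18, 8, 10, 10, 18, 18, 10, 8, 0, 0, 0, 0, 0, 0, 0, 0, 0, 0, 0, 0, 0, 0, 0, 0],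
    [7, 7, 17, 17, 12, 12, 7, 17, 12, 0, 0, 0, 0, 0, 0, 0, 0, 0, 0, 0, 0, 0, 0, 0, 0],
    [8, 18, 8, 10, 10, 18, 18, 10, 8, 0, 0, 0, 0, 0, 0, 0, 0, 0, 0, 0, 0, 0, 0, 0, 0],
    [7, 7, 17, 17, 12, 12, 7, 17, 12, 0, 0, 0, 0, 0, 0, 0, 0, 0, 0, 0, 0, 0, 0, 0, 0],
    [16, 9, 9, 11, 16, 11, 11, 9, 16, 0, 0, 0, 0, 0, 0, 0, 0, 0, 0, 0, 0, 0, 0, 0, 0],
    [20, 20, 20, 4, 4, 14, 14, 14, 4, 0, 0, 0, 0, 0, 0, 0, 0, 0, 0, 0, 0, 0, 0, 0, 0],
    [20, 20, 20, 15, 6, 6, 6, 15, 15, 0, 0, 0, 0, 0, 0, 0, 0, 0, 0, 0, 0, 0, 0, 0, 0],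
    [20, 20, 20, 5, 13, 5, 13, 5, 13, 0, 0, 0, 0, 0, 0, 0, 0, 0, 0, 0, 0, 0, 0, 0, 0],
    [19, 19, 19, 15, 6, 6, 6, 15, 15, 0, 0, 0, 0, 0, 0, 0, 0, 0, 0, 0, 0, 0, 0, 0, 0],
    [19, 19, 19, 5, 13, 5, 13, 5, 13, 0, 0, 0, 0, 0, 0, 0, 0, 0, 0, 0, 0, 0, 0, 0, 0],
    [19, 19, 19, 4, 4, 14, 14, 14, 4, 0, 0, 0, 0, 0, 0, 0, 0, 0, 0, 0, 0, 0, 0, 0, 0],
    [1, 2, 3, 1, 2, 3, 2, 3, 1, 0, 0, 0, 0, 0, 0, 0, 0, 0, 0, 0, 0, 0, 0, 0, 0]]

/-- its twenty copies of `K₃,₃` -/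
def B20 : List (List ℕ) :=
   [[0, 3, 8, 5, 10, 24],
    [1, 4, 6, 3, 11, 24],
    [2, 5, 7, 4, 9, 24],
    [3, 4, 8, 9, 18, 23],
    [3, 5, 7, 11, 20, 22],
    [4, 5, 6, 10, 19, 21],
    [0, 1, 6, 9, 14, 16],
    [0, 2, 8, 11, 13, 15],
    [1, 2, 7, 10, 12, 17],
    [3, 4, 7, 8, 13, 15],
    [3, 5, 6, 7, 12, 17],
    [4, 5, 8, 6, 14, 16],
    [0, 20, 22, 4, 6, 8],
    [1, 18, 23, 5, 6, 7],
    [2, 19, 21, 3, 7, 8],
    [0, 4, 8, 1, 12, 17],
    [0, 14, 16, 2, 3, 7],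
    [1, 5, 6, 2, 13, 15],
    [0, 1, 2, 21, 22, 23],
    [0, 1, 2, 18, 19, 20]]

lemma T20_symm : ∀ x < 25, ∀ y < 25, ent T20 x y = ent T20 y x := by
  have : (ball 25 fun x => ball 25 fun y => decide (ent T20 x y = ent T20 y x)) = true := by
    decide +kernel
  simpa only [ball_iff, decide_eq_true_eq] using this

lemma B20_spec : ∀ i < 20, (∀ a < 6, ent B20 i a < 25) ∧
    (∀ a < 6, ∀ b < 6, a ≠ b → ent B20 i a ≠ ent B20 i b) ∧
    (∀ a < 3, ∀ b < 3, (ent B20 i a < 9 ∨ ent B20 i (b + 3) < 9) ∧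
      ent T20 (ent B20 i a) (ent B20 i (b + 3)) = i + 1) := by
  have : (ball 20 fun i => (ball 6 fun a => decide (ent B20 i a < 25)) &&
    ((ball 6 fun a => ball 6 fun b => decide (a ≠ b → ent B20 i a ≠ ent B20 i b)) &&
    (ball 3 fun a => ball 3 fun b =>
      decide ((ent B20 i a < 9 ∨ ent B20 i (b + 3) < 9) ∧
        ent T20 (ent B20 i a) (ent B20 i (b + 3)) = i + 1)))) = true := by
    decide +kernel
  simpa only [Bool.and_eq_true, ball_iff, decide_eq_true_eq] using this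

/-- the colour of the pair `x ≤ y` of the infinite family -/
def cc (x y : ℕ) : ℕ × ℕ × ℕ :=
  if y < 16 then (0, 0, ent T16 x y)
  else if x < 16 then ((y - 16) / 9 + 1, 0, ent T20 (x + 9) ((y - 16) % 9))
  else if x < 16 + 9 * ((y - 16) / 9) then
    ((y - 16) / 9 + 1, (x - 16) / 3 + 1, ((y - 16) % 9) / 3)
  else ((y - 16) / 9 + 1, 0, ent T20 ((x - 16) % 9) ((y - 16) % 9))

/-- the colour of the pair `x, y` of the infinite family -/
def col (x y : ℕ) : ℕ × ℕ × ℕ := if x ≤ y then cc x y else cc y x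

lemma col_symm (x y : ℕ) : col x y = col y x := by
  unfold col
  rcases lt_trichotomy x y with h | h | h
  · rw [if_pos h.le, if_neg (not_le.mpr h)]
  · rw [h]
  · rw [if_neg (not_le.mpr h), if_pos h.le]

lemma col_base {x y : ℕ} (hx : x < 16) (hy : y < 16) : col x y = (0, 0, ent T16 x y) := by
  unfold col cc
  rw [if_pos hy, if_pos hx]
  split_ifs
  · rfl
  · rw [chk_16.symm y hy x hx]

/-- placement of the vertices of the hole decomposition for group `g` -/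
def pl (g x : ℕ) : ℕ := if x < 9 then 16 + 9 * g + x else x - 9

lemma pl_inj {g x y : ℕ} (hx : x < 25) (hy : y < 25) (h : pl g x = pl g y) : x = y := by
  unfold pl at h; split_ifs at h <;> omega

lemma pl_lt {g m x : ℕ} (hg : g < m) (hx : x < 25) : pl g x < 16 + 9 * m := by
  unfold pl; split_ifs <;> omega

lemma cc_group {g x y : ℕ} (hx : x < 25) (hy : y < 9) :
    cc (pl g x) (pl g y) = (g + 1, 0, ent T20 x y) := by
  have hpy : pl g y = 16 + 9 * g + y := by unfold pl; rw [if_pos hy]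
  have e1 : (16 + 9 * g + y - 16) / 9 = g := by omega
  have e2 : (16 + 9 * g + y - 16) % 9 = y := by omega
  unfold cc
  rw [hpy, if_neg (by omega), e1, e2]
  by_cases h9 : x < 9
  · have hpx : pl g x = 16 + 9 * g + x := by unfold pl; rw [if_pos h9]
    have e3 : (16 + 9 * g + x - 16) % 9 = x := by omega
    rw [hpx, if_neg (by omega), if_neg (by omega), e3]
  · have hpx : pl g x = x - 9 := by unfold pl; rw [if_neg h9]
    have e3 : x - 9 + 9 = x := by omega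
    rw [hpx, if_pos (by omega), e3]

lemma col_group {g x y : ℕ} (hx : x < 25) (hy : y < 25) (h : x < 9 ∨ y < 9) :
    col (pl g x) (pl g y) = (g + 1, 0, ent T20 x y) := by
  unfold col
  by_cases hle : pl g x ≤ pl g y
  · rw [if_pos hle]
    have hy9 : y < 9 := by
      by_contra hy9
      have hx9 : x < 9 := by omega
      unfold pl at hle
      rw [if_pos hx9, if_neg hy9] at hle
      omega
    exact cc_group hx hy9
  · rw [if_neg hle, T20_symm x hx y hy]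
    have hx9 : x < 9 := by
      by_contra hx9
      have hy9 : y < 9 := by omega
      unfold pl at hle
      rw [if_pos hy9, if_neg hx9] at hle
      omega
    exact cc_group hy hx9

lemma col_cross {g t s a b : ℕ} (ht : t < 3 * g) (hs : s < 3) (ha : a < 3) (hb : b < 3) :
    col (16 + 3 * t + a) (16 + 9 * g + 3 * s + b) = (g + 1, t + 1, s) := by
  have e1 : (16 + 9 * g + 3 * s + b - 16) / 9 = g := by omega
  have e2 : (16 + 9 * g + 3 * s + b - 16) % 9 = 3 * s + b := by omega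
  have e3 : (16 + 3 * t + a - 16) / 3 = t := by omega
  have e4 : (3 * s + b) / 3 = s := by omega
  unfold col cc
  rw [if_pos (by omega), if_neg (by omega), if_neg (by omega), e1, e2, if_pos (by omega), e3, e4]

/-- the index type of the family -/
abbrev Idx (m : ℕ) : Type :=
  (Fin 2 ⊕ Fin 11) ⊕ ((Fin m × Fin 20) ⊕ (Σ g : Fin m, Fin (3 * g) × Fin 3))

/-- the colours -/
def ecol (m : ℕ) : Idx m → ℕ × ℕ × ℕ
  | Sum.inl (Sum.inl i) => (0, 0, 0 + i + 1)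
  | Sum.inl (Sum.inr i) => (0, 0, 0 + 2 + i + 1)
  | Sum.inr (Sum.inl (g, i)) => (g + 1, 0, i + 1)
  | Sum.inr (Sum.inr ⟨g, (t, s)⟩) => (g + 1, t + 1, s)

lemma ecol_inj (m : ℕ) : Function.Injective (ecol m) := by
  rintro ((i | i) | ⟨g, i⟩ | ⟨g, t, s⟩) ((j | j) | ⟨g', j⟩ | ⟨g', t', s'⟩) h <;>
    simp only [ecol, Prod.mk.injEq] at h
  · rw [Fin.ext (by omega : (i : ℕ) = j)]
  · omega
  · omega
  · omega
  · omega
  · rw [Fin.ext (by omega : (i : ℕ) = j)]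
  · omega
  · omega
  · omega
  · omega
  · rw [Fin.ext (by omega : (i : ℕ) = j), Fin.ext (by omega : (g : ℕ) = g')]
  · omega
  · omega
  · omega
  · omega
  · have hg : g = g' := Fin.ext (by omega)
    subst hg
    have ht : t = t' := Fin.ext (by omega)
    have hs : s = s' := Fin.ext (by omega)
    rw [ht, hs]

lemma card_idx (m : ℕ) : Fintype.card (Idx m) = (9 * m ^ 2 + 31 * m + 26) / 2 := by
  have h : ∀ k : ℕ, 2 * (∑ g : Fin k, (3 * (g : ℕ)) * 3) + 9 * k = 9 * k ^ 2 := by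
    intro k
    induction k with
    | zero => simp
    | succ k ih =>
      rw [Fin.sum_univ_castSucc]
      simp only [Fin.val_castSucc, Fin.val_last]
      have : 9 * (k + 1) ^ 2 = 9 * k ^ 2 + 18 * k + 9 := by ring
      rw [this, ← ih]; ring
  have h1 : Fintype.card (Idx m) = 2 + 11 + (m * 20 + ∑ g : Fin m, (3 * (g : ℕ)) * 3) := by
    simp only [Idx, Fintype.card_sum, Fintype.card_fin, Fintype.card_prod, Fintype.card_sigma]
  rw [h1]
  have := h m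
  omega

theorem coarseness_family (m : ℕ) :
    (9 * m ^ 2 + 31 * m + 26) / 2 ≤ coarseness (⊤ : SimpleGraph (Fin (16 + 9 * m))) := by
  rw [← card_idx m]
  refine card_le_coarseness (V := Fin (16 + 9 * m)) (fun x y => col x y)
    (fun x y => col_symm x y) (ecol m) (ecol_inj m) ?_
  have hcast : Function.Injective (Fin.castLE (by omega : 16 ≤ 16 + 9 * m)) :=
    Fin.castLE_injective _
  rintro ((i | i) | ⟨g, i⟩ | ⟨g, t, s⟩)
  · obtain ⟨h1, h2, h3, h4, h5⟩ := chk_16.sub i i.2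
    refine hasBad_sub (n := 16) (c := fun x y : Fin (16 + 9 * m) => col x y)
      (Fin.castLE (by omega)) hcast h1 h2 ?_ ?_ ?_
    · intro a b ha hb hab
      simp only [Fin.val_castLE]
      rw [col_base (h1 _ (by omega)) (h1 _ (by omega)), h3 a ha b hb hab]
      rfl
    · simp only [Fin.val_castLE]
      rw [col_base (h1 _ (by omega)) (h1 _ (by omega)), h4]
      rfl
    · simp only [Fin.val_castLE]
      rw [col_base (h1 _ (by omega)) (h1 _ (by omega)), h5]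
      rfl
  · obtain ⟨h1, h2, h3⟩ := chk_16.three i i.2
    refine hasBad_three (n := 16) (c := fun x y : Fin (16 + 9 * m) => col x y)
      (Fin.castLE (by omega)) hcast h1 h2 ?_
    intro a b ha hb
    simp only [Fin.val_castLE]
    rw [col_base (h1 _ (by omega)) (h1 _ (by omega)), h3 a ha b hb]
    rfl
  · obtain ⟨h1, h2, h3⟩ := B20_spec i i.2
    refine hasBad_three (n := 25) (c := fun x y : Fin (16 + 9 * m) => col x y)
      (fun x => ⟨pl g x, pl_lt g.2 x.2⟩)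
      (fun x y h => Fin.ext (pl_inj x.2 y.2 (congrArg Fin.val h))) h1 h2 ?_
    intro a b ha hb
    obtain ⟨h4, h5⟩ := h3 a ha b hb
    simp only
    rw [col_group (h1 _ (by omega)) (h1 _ (by omega)) h4, h5]
    rfl
  · have hg := g.2
    have ht := t.2
    have hs := s.2
    refine Or.inl ⟨fun a => ⟨16 + 3 * t + a, by omega⟩,
      fun b => ⟨16 + 9 * g + 3 * s + b, by omega⟩, ?_, ?_, ?_, ?_⟩
    · intro a b hab
      have := congrArg Fin.val hab
      simp only at this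
      exact Fin.ext (by omega)
    · intro a b hab
      have := congrArg Fin.val hab
      simp only at this
      exact Fin.ext (by omega)
    · intro a b hab
      have := congrArg Fin.val hab
      simp only at this
      omega
    · intro a b
      refine ⟨fun hab => ?_, ?_⟩
      · have := congrArg Fin.val hab
        simp only at this
        omega
      · show col _ _ = _
        rw [col_cross ht hs a.2 b.2]
        rfl

/-- the family in the parametrisation of the question -/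
theorem coarseness_9n7 (n : ℕ) (hn : 1 ≤ n) :
    (9 * n ^ 2 + 13 * n + 4) / 2 ≤ coarseness (⊤ : SimpleGraph (Fin (9 * n + 7))) := by
  obtain ⟨m, rfl⟩ : ∃ m, n = m + 1 := ⟨n - 1, by omega⟩
  have h := coarseness_family m
  have e1 : 16 + 9 * m = 9 * (m + 1) + 7 := by ring
  have e2 : 9 * m ^ 2 + 31 * m + 26 = 9 * (m + 1) ^ 2 + 13 * (m + 1) + 4 := by ring
  rw [e1, e2] at h
  exact h

end Pool.Agent.Coarse
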