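import Pool.Agent.Coarse.Nonplanar

set_option autoImplicit false

namespace Pool.Agent.Coarse

/-- A graph without edges on finitely many vertices is planar. -/
lemma planar_of_edgeless {W : Type} [Finite W] (G : SimpleGraph W) (h : ∀ x y, ¬ G.Adj x y) :
    IsPlanar G := by
  obtain ⟨n, ⟨e⟩⟩ := Finite.exists_equiv_fin W
  have he : G.edgeSet = ∅ := by
    ext e
    induction e using Sym2.ind with
    | h x y => simpa using h x y
  refine ⟨fun w => ((e w : ℕ) : ℂ), fun _ => ContinuousMap.const _ 0, ?_, ?_, ?_, ?_, ?_⟩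
  · intro x y hxy
    apply e.injective
    apply Fin.ext
    simpa using hxy
  · intro e' he'; rw [he] at he'; exact absurd he' (Set.notMem_empty _)
  · intro u v huv; exact absurd huv (h u v)
  · intro e' he'; rw [he] at he'; exact absurd he' (Set.notMem_empty _)
  · intro e' he'; rw [he] at he'; exact absurd he' (Set.notMem_empty _)

lemma bddAbove_packings {V : Type} [Finite V] (G : SimpleGraph V) :
    BddAbove {k : ℕ | ∃ H : Fin k → G.Subgraph,
      (∀ i, ¬ IsPlanar (H i).coe) ∧ ∀ i j, i ≠ j → Disjoint (H i).edgeSet (H j).edgeSet} := by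
  refine ⟨Nat.card (Sym2 V), ?_⟩
  rintro k ⟨H, h1, h2⟩
  have h3 : ∀ i, ∃ e, e ∈ (H i).edgeSet := by
    intro i
    by_contra hcon
    push Not at hcon
    apply h1 i
    apply planar_of_edgeless
    intro x y hxy
    exact hcon s(x.1, y.1) hxy
  choose e he using h3
  have hinj : Function.Injective e := by
    intro i j hij
    by_contra hne
    exact Set.disjoint_left.mp (h2 i j hne) (he i) (hij ▸ he j)
  have := Nat.card_le_card_of_injective e hinj
  simpa using this

/-- `V` carries a small nonplanar pattern all of whose edges satisfy `r`. -/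
def HasBad {V : Type} (r : V → V → Prop) : Prop :=
  (∃ a b : Fin 3 → V, Function.Injective a ∧ Function.Injective b ∧ (∀ i j, a i ≠ b j) ∧
    ∀ i j, r (a i) (b j)) ∨
  (∃ (a b : Fin 3 → V) (w : V), Function.Injective a ∧ Function.Injective b ∧
    (∀ i j, a i ≠ b j) ∧ (∀ i, a i ≠ w) ∧ (∀ j, b j ≠ w) ∧
    (∀ i j, (i ≠ 0 ∨ j ≠ 0) → r (a i) (b j)) ∧ r (a 0) w ∧ r w (b 0)) ∨
  (∃ c : Fin 5 → V, Function.Injective c ∧ ∀ i j, i ≠ j → r (c i) (c j))

theorem not_planar_of_hasBad {V : Type} (G : SimpleGraph V) (h : HasBad G.Adj) :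
    ¬ IsPlanar G := by
  rcases h with ⟨a, b, h1, h2, h3, h4⟩ | ⟨a, b, w, h1, h2, h3, h4, h5, h6, h7, h8⟩ | ⟨c, h1, h2⟩
  · exact not_planar_K33 G a b h1 h2 h3 h4
  · exact not_planar_K33_sub G a b w h1 h2 h3 h4 h5 h6 h7 h8
  · exact not_planar_K5 G c h1 h2

/-- A (partial) edge colouring of the complete graph all of whose colour classes `e i` are
nonplanar bounds the coarseness from below. -/
theorem card_le_coarseness {V K ι : Type} [Finite V] [Fintype ι] (c : V → V → K)
    (hc : ∀ x y, c x y = c y x) (e : ι → K) (he : Function.Injective e)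
    (hbad : ∀ i, HasBad (fun x y => x ≠ y ∧ c x y = e i)) :
    Fintype.card ι ≤ coarseness (⊤ : SimpleGraph V) := by
  let H : ι → (⊤ : SimpleGraph V).Subgraph := fun i =>
    { verts := Set.univ
      Adj := fun x y => x ≠ y ∧ c x y = e i
      adj_sub := fun h => h.1
      edge_vert := fun _ => Set.mem_univ _
      symm := ⟨fun x y h => ⟨h.1.symm, by rw [hc]; exact h.2⟩⟩ }
  refine le_csSup (bddAbove_packings _) ⟨fun i => H ((Fintype.equivFin ι).symm i), ?_, ?_⟩
  · intro i
    apply not_planar_of_hasBad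
    have hb := hbad ((Fintype.equivFin ι).symm i)
    rcases hb with ⟨a, b, h1, h2, h3, h4⟩ | ⟨a, b, w, h1, h2, h3, h4, h5, h6, h7, h8⟩ | ⟨c', h1, h2⟩
    · exact Or.inl ⟨fun i => ⟨a i, Set.mem_univ _⟩, fun i => ⟨b i, Set.mem_univ _⟩,
        fun i j h => h1 (congrArg Subtype.val h), fun i j h => h2 (congrArg Subtype.val h),
        fun i j h => h3 i j (congrArg Subtype.val h), h4⟩
    · exact Or.inr (Or.inl ⟨fun i => ⟨a i, Set.mem_univ _⟩, fun i => ⟨b i, Set.mem_univ _⟩,
        ⟨w, Set.mem_univ _⟩,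
        fun i j h => h1 (congrArg Subtype.val h), fun i j h => h2 (congrArg Subtype.val h),
        fun i j h => h3 i j (congrArg Subtype.val h), fun i h => h4 i (congrArg Subtype.val h),
        fun i h => h5 i (congrArg Subtype.val h), h6, h7, h8⟩)
    · exact Or.inr (Or.inr ⟨fun i => ⟨c' i, Set.mem_univ _⟩,
        fun i j h => h1 (congrArg Subtype.val h), h2⟩)
  · intro i j hij
    rw [Set.disjoint_left]
    intro s hs hs'
    induction s using Sym2.ind with
    | h x y =>
      have h1 : c x y = e ((Fintype.equivFin ι).symm i) := hs.2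
      have h2 : c x y = e ((Fintype.equivFin ι).symm j) := hs'.2
      exact hij ((Fintype.equivFin ι).symm.injective (he (h1.symm.trans h2)))

end Pool.Agent.Coarse
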