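import Pool.Agent.Coarse.Pack

set_option autoImplicit false

namespace Pool.Agent.Coarse

/-- entry of a table of natural numbers (0 outside) -/
def ent (L : List (List ℕ)) (x y : ℕ) : ℕ := (L.getD x []).getD y 0

/-- Specification of a colour table `T` on `n` points (colours `1, …, k5 + kS + k3`), with a list
`A5` of `k5` copies of `K₅`, a list `AS` of `kS` copies of `K₃,₃` with one subdivided edge (the edge
from the first to the fourth vertex is replaced by a path through the seventh one), and a list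
`A3` of `k3` copies of `K₃,₃`. -/
structure Chk (n k5 kS k3 : ℕ) (T A5 AS A3 : List (List ℕ)) : Prop where
  symm : ∀ x < n, ∀ y < n, ent T x y = ent T y x
  five : ∀ i < k5, (∀ a < 5, ent A5 i a < n) ∧ ∀ a < 5, ∀ b < 5, a ≠ b →
    ent A5 i a ≠ ent A5 i b ∧ ent T (ent A5 i a) (ent A5 i b) = i + 1
  sub : ∀ i < kS, (∀ a < 7, ent AS i a < n) ∧
    (∀ a < 7, ∀ b < 7, a ≠ b → ent AS i a ≠ ent AS i b) ∧
    (∀ a < 3, ∀ b < 3, (a ≠ 0 ∨ b ≠ 0) →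
      ent T (ent AS i a) (ent AS i (b + 3)) = k5 + i + 1) ∧
    ent T (ent AS i 0) (ent AS i 6) = k5 + i + 1 ∧
    ent T (ent AS i 6) (ent AS i 3) = k5 + i + 1
  three : ∀ i < k3, (∀ a < 6, ent A3 i a < n) ∧
    (∀ a < 6, ∀ b < 6, a ≠ b → ent A3 i a ≠ ent A3 i b) ∧
    ∀ a < 3, ∀ b < 3, ent T (ent A3 i a) (ent A3 i (b + 3)) = k5 + kS + i + 1

/-- Boolean bounded quantifier -/
def ball (n : ℕ) (p : ℕ → Bool) : Bool := (List.range n).all p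

lemma ball_iff (n : ℕ) (p : ℕ → Bool) : ball n p = true ↔ ∀ i < n, p i = true := by
  simp [ball, List.all_eq_true, List.mem_range]

/-- Boolean version of `Chk` -/
def chk (n k5 kS k3 : ℕ) (T A5 AS A3 : List (List ℕ)) : Bool :=
  (ball n fun x => ball n fun y => decide (ent T x y = ent T y x)) &&
  ((ball k5 fun i => (ball 5 fun a => decide (ent A5 i a < n)) &&
    (ball 5 fun a => ball 5 fun b => decide (a ≠ b → ent A5 i a ≠ ent A5 i b ∧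
      ent T (ent A5 i a) (ent A5 i b) = i + 1))) &&
  ((ball kS fun i => (ball 7 fun a => decide (ent AS i a < n)) &&
    ((ball 7 fun a => ball 7 fun b => decide (a ≠ b → ent AS i a ≠ ent AS i b)) &&
    ((ball 3 fun a => ball 3 fun b =>
      decide ((a ≠ 0 ∨ b ≠ 0) → ent T (ent AS i a) (ent AS i (b + 3)) = k5 + i + 1)) &&
    (decide (ent T (ent AS i 0) (ent AS i 6) = k5 + i + 1) &&
    decide (ent T (ent AS i 6) (ent AS i 3) = k5 + i + 1))))) &&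
  (ball k3 fun i => (ball 6 fun a => decide (ent A3 i a < n)) &&
    ((ball 6 fun a => ball 6 fun b => decide (a ≠ b → ent A3 i a ≠ ent A3 i b)) &&
    (ball 3 fun a => ball 3 fun b =>
      decide (ent T (ent A3 i a) (ent A3 i (b + 3)) = k5 + kS + i + 1))))))

lemma chk_spec {n k5 kS k3 : ℕ} {T A5 AS A3 : List (List ℕ)}
    (h : chk n k5 kS k3 T A5 AS A3 = true) : Chk n k5 kS k3 T A5 AS A3 := by
  simp only [chk, Bool.and_eq_true, ball_iff, decide_eq_true_eq] at h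
  exact ⟨h.1, h.2.1, h.2.2.1, h.2.2.2⟩

/-- A copy of `K₅` in a table gives the pattern, for an arbitrary colouring `c` that agrees with the
table after an injective placement `f` of the points. -/
lemma hasBad_five {V K : Type} {c : V → V → K} {κ : K} {n : ℕ} {T : List (List ℕ)} {L : ℕ → ℕ}
    {t : ℕ} (f : Fin n → V) (hf : Function.Injective f)
    (hc : ∀ x y : Fin n, ent T x y = t → c (f x) (f y) = κ)
    (h1 : ∀ a < 5, L a < n)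
    (h2 : ∀ a < 5, ∀ b < 5, a ≠ b → L a ≠ L b ∧ ent T (L a) (L b) = t) :
    HasBad (fun x y => x ≠ y ∧ c x y = κ) := by
  refine Or.inr (Or.inr ⟨fun a => f ⟨L a, h1 a a.2⟩, ?_, ?_⟩)
  · intro a b hab
    by_contra hne
    exact (h2 a a.2 b b.2 (fun h => hne (Fin.ext h))).1 (congrArg Fin.val (hf hab))
  · intro a b hab
    have := h2 a a.2 b b.2 (fun h => hab (Fin.ext h))
    exact ⟨fun h => this.1 (congrArg Fin.val (hf h)), hc _ _ this.2⟩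

/-- The same for `K₃,₃`. -/
lemma hasBad_three {V K : Type} {c : V → V → K} {κ : K} {n : ℕ} {L : ℕ → ℕ}
    (f : Fin n → V) (hf : Function.Injective f)
    (h1 : ∀ a < 6, L a < n)
    (h2 : ∀ a < 6, ∀ b < 6, a ≠ b → L a ≠ L b)
    (h3 : ∀ (a b : ℕ) (ha : a < 3) (hb : b < 3),
      c (f ⟨L a, h1 a (by omega)⟩) (f ⟨L (b + 3), h1 _ (by omega)⟩) = κ) :
    HasBad (fun x y => x ≠ y ∧ c x y = κ) := by
  refine Or.inl ⟨fun a => f ⟨L a, h1 a (by omega)⟩,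
    fun b => f ⟨L (b + 3), h1 _ (by omega)⟩, ?_, ?_, ?_, ?_⟩
  · intro a b hab
    by_contra hne
    exact h2 a (by omega) b (by omega) (fun h => hne (Fin.ext h)) (congrArg Fin.val (hf hab))
  · intro a b hab
    by_contra hne
    exact h2 (a + 3) (by omega) (b + 3) (by omega)
      (fun h => hne (Fin.ext (by omega))) (congrArg Fin.val (hf hab))
  · intro a b hab
    exact h2 a (by omega) (b + 3) (by omega) (by omega) (congrArg Fin.val (hf hab))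
  · intro a b
    exact ⟨fun hab => h2 a (by omega) (b + 3) (by omega) (by omega) (congrArg Fin.val (hf hab)),
      h3 a b a.2 b.2⟩

/-- The same for `K₃,₃` with one subdivided edge. -/
lemma hasBad_sub {V K : Type} {c : V → V → K} {κ : K} {n : ℕ} {L : ℕ → ℕ}
    (f : Fin n → V) (hf : Function.Injective f)
    (h1 : ∀ a < 7, L a < n)
    (h2 : ∀ a < 7, ∀ b < 7, a ≠ b → L a ≠ L b)
    (h3 : ∀ (a b : ℕ) (ha : a < 3) (hb : b < 3), (a ≠ 0 ∨ b ≠ 0) →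
      c (f ⟨L a, h1 a (by omega)⟩) (f ⟨L (b + 3), h1 _ (by omega)⟩) = κ)
    (h4 : c (f ⟨L 0, h1 0 (by omega)⟩) (f ⟨L 6, h1 6 (by omega)⟩) = κ)
    (h5 : c (f ⟨L 6, h1 6 (by omega)⟩) (f ⟨L 3, h1 3 (by omega)⟩) = κ) :
    HasBad (fun x y => x ≠ y ∧ c x y = κ) := by
  refine Or.inr (Or.inl ⟨fun a => f ⟨L a, h1 a (by omega)⟩,
    fun b => f ⟨L (b + 3), h1 _ (by omega)⟩, f ⟨L 6, h1 6 (by omega)⟩,
    ?_, ?_, ?_, ?_, ?_, ?_, ?_, ?_⟩)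
  · intro a b hab
    by_contra hne
    exact h2 a (by omega) b (by omega) (fun h => hne (Fin.ext h)) (congrArg Fin.val (hf hab))
  · intro a b hab
    by_contra hne
    exact h2 (a + 3) (by omega) (b + 3) (by omega)
      (fun h => hne (Fin.ext (by omega))) (congrArg Fin.val (hf hab))
  · intro a b hab
    exact h2 a (by omega) (b + 3) (by omega) (by omega) (congrArg Fin.val (hf hab))
  · intro a hab
    exact h2 a (by omega) 6 (by omega) (by omega) (congrArg Fin.val (hf hab))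
  · intro b hab
    exact h2 (b + 3) (by omega) 6 (by omega) (by omega) (congrArg Fin.val (hf hab))
  · intro a b hab
    refine ⟨fun hab => h2 a (by omega) (b + 3) (by omega) (by omega)
      (congrArg Fin.val (hf hab)), ?_⟩
    exact h3 a b a.2 b.2 (by
      rcases hab with h | h
      · exact Or.inl (fun h' => h (Fin.ext h'))
      · exact Or.inr (fun h' => h (Fin.ext h')))
  · exact ⟨fun hab => h2 0 (by omega) 6 (by omega) (by omega) (congrArg Fin.val (hf hab)), h4⟩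
  · exact ⟨fun hab => h2 6 (by omega) 3 (by omega) (by omega) (congrArg Fin.val (hf hab)), h5⟩

theorem Chk.bound {n k5 kS k3 : ℕ} {T A5 AS A3 : List (List ℕ)}
    (h : Chk n k5 kS k3 T A5 AS A3) :
    k5 + (kS + k3) ≤ coarseness (⊤ : SimpleGraph (Fin n)) := by
  have := card_le_coarseness (V := Fin n) (K := ℕ) (ι := Fin k5 ⊕ (Fin kS ⊕ Fin k3))
    (fun x y => ent T x y) (fun x y => h.symm x x.2 y y.2)
    (Sum.elim (fun i => (i : ℕ) + 1)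
      (Sum.elim (fun i => k5 + (i : ℕ) + 1) (fun i => k5 + kS + (i : ℕ) + 1))) ?_ ?_
  · simpa using this
  · rintro (i | i | i) (j | j | j) hij <;> simp only [Sum.elim_inl, Sum.elim_inr] at hij
    · rw [Fin.ext (by omega : (i : ℕ) = j)]
    · omega
    · omega
    · omega
    · rw [Fin.ext (by omega : (i : ℕ) = j)]
    · omega
    · omega
    · omega
    · rw [Fin.ext (by omega : (i : ℕ) = j)]
  · rintro (i | i | i)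
    · obtain ⟨hlt, hc⟩ := h.five i i.2
      exact hasBad_five (n := n) (T := T) id Function.injective_id (fun x y h => h) hlt hc
    · obtain ⟨hlt, hd, hc, h4, h5⟩ := h.sub i i.2
      exact hasBad_sub (n := n) (c := fun x y : Fin n => ent T x y) id Function.injective_id
        hlt hd (fun a b ha hb hab => hc a ha b hb hab) h4 h5
    · obtain ⟨hlt, hd, hc⟩ := h.three i i.2
      exact hasBad_three (n := n) (c := fun x y : Fin n => ent T x y) id Function.injective_id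
        hlt hd (fun a b ha hb => hc a ha b hb)

/-- colour table for `K_13` -/
def T13 : List (List ℕ) :=
   [[0, 2, 1, 1, 4, 1, 6, 2, 5, 5, 2, 4, 6],
    [2, 0, 3, 1, 8, 2, 5, 3, 5, 1, 8, 5, 8],
    [1, 3, 0, 3, 8, 3, 5, 1, 5, 1, 8, 5, 8],
    [1, 1, 3, 0, 7, 4, 7, 1, 3, 7, 3, 4, 4],
    [4, 8, 8, 7, 0, 4, 6, 7, 8, 6, 7, 6, 4],
    [1, 2, 3, 4, 4, 0, 4, 1, 3, 1, 3, 2, 2],
    [6, 5, 5, 7, 6, 4, 0, 7, 6, 5, 7, 4, 4],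
    [2, 3, 1, 1, 7, 1, 7, 0, 3, 7, 3, 2, 2],
    [5, 5, 5, 3, 8, 3, 6, 3, 0, 6, 8, 6, 8],
    [5, 1, 1, 7, 6, 1, 5, 7, 6, 0, 7, 5, 6],
    [2, 8, 8, 3, 7, 3, 7, 3, 8, 7, 0, 2, 2],
    [4, 5, 5, 4, 6, 2, 4, 2, 6, 5, 2, 0, 6],
    [6, 8, 8, 4, 4, 2, 4, 2, 8, 6, 2, 6, 0]]

/-- the subdivided copies of `K₃,₃` in `K_13` -/
def S13 : List (List ℕ) :=
   [[9, 0, 7, 3, 2, 5, 1],
    [0, 11, 12, 5, 7, 10, 1],
    [2, 8, 10, 7, 3, 5, 1],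
    [4, 3, 6, 11, 5, 12, 0],
    [9, 1, 2, 8, 6, 11, 0],
    [12, 4, 8, 6, 9, 11, 0]]

/-- the copies of `K₃,₃` in `K_13` -/
def B13 : List (List ℕ) :=
   [[3, 7, 10, 4, 6, 9],
    [1, 2, 8, 4, 10, 12]]

theorem chk_13 : Chk 13 0 6 2 T13 [] S13 B13 :=
  chk_spec (by decide +kernel)

theorem coarseness_13 : 8 ≤ coarseness (⊤ : SimpleGraph (Fin 13)) :=
  chk_13.bound

/-- colour table for `K_16` -/
def T16 : List (List ℕ) :=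
   [[0, 8, 11, 3, 8, 1, 11, 8, 13, 13, 11, 1, 3, 13, 1, 3],
    [8, 0, 10, 9, 10, 6, 1, 9, 1, 8, 10, 9, 8, 6, 1, 6],
    [11, 10, 0, 12, 7, 7, 10, 11, 10, 12, 12, 2, 7, 2, 11, 2],
    [3, 9, 12, 0, 9, 5, 3, 2, 5, 3, 5, 12, 2, 12, 9, 2],
    [8, 10, 7, 9, 0, 6, 10, 9, 10, 8, 7, 9, 8, 6, 7, 6],
    [1, 6, 7, 5, 6, 0, 1, 4, 1, 5, 7, 6, 4, 4, 7, 5],
    [11, 1, 10, 3, 10, 1, 0, 11, 13, 13, 10, 1, 3, 13, 11, 3],
    [8, 9, 11, 2, 9, 4, 11, 0, 4, 8, 11, 2, 8, 2, 9, 4],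
    [13, 1, 10, 5, 10, 1, 13, 4, 0, 5, 10, 1, 4, 4, 13, 5],
    [13, 8, 12, 3, 8, 5, 13, 8, 5, 0, 5, 12, 3, 12, 13, 3],
    [11, 10, 12, 5, 7, 7, 10, 11, 10, 5, 0, 12, 7, 12, 11, 5],
    [1, 9, 2, 12, 9, 6, 1, 2, 1, 12, 12, 0, 2, 6, 9, 6],
    [3, 8, 7, 2, 8, 4, 3, 8, 4, 3, 7, 2, 0, 2, 7, 4],
    [13, 6, 2, 12, 6, 4, 13, 2, 4, 12, 12, 6, 2, 0, 13, 4],
    [1, 1, 11, 9, 7, 7, 11, 9, 13, 13, 11, 9, 7, 13, 0, 0],
    [3, 6, 2, 2, 6, 5, 3, 4, 5, 3, 5, 6, 4, 4, 0, 0]]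

/-- the subdivided copies of `K₃,₃` in `K_16` -/
def S16 : List (List ℕ) :=
   [[0, 6, 8, 1, 5, 11, 14],
    [2, 7, 12, 3, 11, 13, 15]]

/-- the copies of `K₃,₃` in `K_16` -/
def B16 : List (List ℕ) :=
   [[0, 6, 9, 3, 12, 15],
    [5, 8, 15, 7, 12, 13],
    [3, 9, 15, 5, 8, 10],
    [1, 4, 11, 5, 13, 15],
    [2, 10, 14, 4, 5, 12],
    [0, 9, 12, 1, 4, 7],
    [1, 4, 14, 3, 7, 11],
    [1, 6, 8, 2, 4, 10],
    [0, 7, 14, 2, 6, 10],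
    [2, 11, 13, 3, 9, 10],
    [0, 6, 14, 8, 9, 13]]

theorem chk_16 : Chk 16 0 2 11 T16 [] S16 B16 :=
  chk_spec (by decide +kernel)

theorem coarseness_16 : 13 ≤ coarseness (⊤ : SimpleGraph (Fin 16)) :=
  chk_16.bound

/-- colour table for `K_18` -/
def T18 : List (List ℕ) :=
   [[0, 1, 1, 1, 3, 8, 7, 9, 3, 3, 8, 9, 1, 7, 3, 8, 7, 9],
    [1, 0, 1, 1, 13, 4, 13, 14, 12, 13, 4, 4, 1, 14, 12, 4, 12, 14],
    [1, 1, 0, 1, 15, 11, 5, 9, 5, 15, 5, 9, 1, 11, 15, 11, 5, 9],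
    [1, 1, 1, 0, 10, 8, 7, 6, 10, 6, 8, 6, 1, 7, 10, 8, 7, 6],
    [3, 13, 15, 10, 0, 2, 2, 2, 3, 3, 15, 10, 13, 2, 3, 13, 15, 10],
    [8, 4, 11, 8, 2, 0, 2, 2, 11, 16, 4, 4, 8, 2, 16, 4, 11, 16],
    [7, 13, 5, 7, 2, 2, 0, 2, 5, 16, 5, 7, 13, 2, 16, 13, 5, 16],
    [9, 14, 9, 6, 2, 2, 2, 0, 12, 6, 14, 6, 9, 2, 12, 14, 12, 6],
    [3, 12, 5, 10, 3, 11, 5, 12, 0, 3, 5, 10, 12, 11, 3, 11, 5, 10],
    [3, 13, 15, 6, 3, 16, 16, 6, 3, 0, 15, 6, 13, 16, 3, 13, 15, 6],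
    [8, 4, 5, 8, 15, 4, 5, 14, 5, 15, 0, 4, 8, 14, 15, 4, 5, 14],
    [9, 4, 9, 6, 10, 4, 7, 6, 10, 6, 4, 0, 9, 7, 10, 4, 7, 6],
    [1, 1, 1, 1, 13, 8, 13, 9, 12, 13, 8, 9, 0, 0, 12, 8, 12, 9],
    [7, 14, 11, 7, 2, 2, 2, 2, 11, 16, 14, 7, 0, 0, 16, 14, 11, 16],
    [3, 12, 15, 10, 3, 16, 16, 12, 3, 3, 15, 10, 12, 16, 0, 0, 15, 10],
    [8, 4, 11, 8, 13, 4, 13, 14, 11, 13, 4, 4, 8, 14, 0, 0, 11, 14],
    [7, 12, 5, 7, 15, 11, 5, 12, 5, 15, 5, 7, 12, 11, 15, 11, 0, 0],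
    [9, 14, 9, 6, 10, 16, 16, 6, 10, 6, 14, 6, 9, 16, 10, 14, 0, 0]]

/-- the copies of `K₅` in `K_18` -/
def F18 : List (List ℕ) :=
   [[0, 1, 2, 3, 12],
    [4, 5, 6, 7, 13],
    [0, 4, 8, 9, 14],
    [1, 5, 10, 11, 15],
    [2, 6, 8, 10, 16],
    [3, 7, 9, 11, 17]]

/-- the copies of `K₃,₃` in `K_18` -/
def B18 : List (List ℕ) :=
   [[0, 3, 11, 6, 13, 16],
    [0, 3, 12, 5, 10, 15],
    [0, 2, 12, 7, 11, 17],
    [3, 11, 17, 4, 8, 14],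
    [2, 8, 16, 5, 13, 15],
    [1, 7, 12, 8, 14, 16],
    [1, 12, 15, 4, 6, 9],
    [1, 10, 15, 7, 13, 17],
    [2, 10, 16, 4, 9, 14],
    [5, 6, 13, 9, 14, 17]]

theorem chk_18 : Chk 18 6 0 10 T18 F18 [] B18 :=
  chk_spec (by decide +kernel)

theorem coarseness_18 : 16 ≤ coarseness (⊤ : SimpleGraph (Fin 18)) :=
  chk_18.bound

/-- colour table for `K_21` -/
def T21 : List (List ℕ) :=
   [[0, 17, 19, 19, 1, 14, 1, 1, 8, 7, 7, 7, 1, 8, 17, 8, 0, 14, 14, 17, 19],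
    [17, 0, 18, 15, 17, 2, 9, 2, 2, 7, 7, 7, 18, 2, 9, 15, 9, 0, 17, 15, 18],
    [19, 18, 0, 3, 16, 18, 3, 10, 3, 7, 7, 7, 10, 19, 3, 0, 16, 10, 19, 18, 16],
    [19, 15, 3, 0, 21, 20, 3, 15, 3, 4, 4, 20, 21, 19, 3, 20, 15, 4, 19, 4, 21],
    [1, 17, 16, 21, 0, 22, 1, 1, 16, 21, 5, 5, 1, 22, 17, 5, 21, 16, 22, 17, 5],
    [14, 2, 18, 20, 22, 0, 14, 2, 2, 6, 22, 6, 18, 2, 20, 14, 6, 22, 6, 20, 18],
    [1, 9, 3, 3, 1, 14, 0, 1, 3, 12, 9, 11, 1, 9, 3, 11, 12, 14, 14, 11, 12],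
    [1, 2, 10, 15, 1, 2, 1, 0, 2, 12, 13, 10, 1, 2, 10, 15, 12, 13, 13, 15, 12],
    [8, 2, 3, 3, 16, 2, 3, 2, 0, 8, 13, 11, 8, 2, 3, 11, 16, 13, 13, 11, 16],
    [7, 7, 7, 4, 21, 6, 12, 12, 8, 0, 4, 6, 21, 8, 12, 8, 6, 4, 6, 4, 21],
    [7, 7, 7, 4, 5, 22, 9, 13, 13, 4, 0, 5, 13, 22, 9, 5, 9, 4, 22, 4, 5],
    [7, 7, 7, 20, 5, 6, 11, 10, 11, 6, 5, 0, 10, 11, 20, 5, 6, 10, 6, 20, 5],
    [1, 18, 10, 21, 1, 18, 1, 1, 8, 21, 13, 10, 0, 8, 10, 8, 21, 13, 13, 18, 0],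
    [8, 2, 19, 19, 22, 2, 9, 2, 2, 8, 22, 11, 8, 0, 9, 11, 9, 22, 0, 11, 19],
    [17, 9, 3, 3, 17, 20, 3, 10, 3, 12, 9, 20, 10, 9, 0, 20, 12, 10, 17, 0, 12],
    [8, 15, 0, 20, 5, 14, 11, 15, 11, 8, 5, 5, 8, 11, 20, 0, 15, 14, 14, 20, 5],
    [0, 9, 16, 15, 21, 6, 12, 12, 16, 6, 9, 6, 21, 9, 12, 15, 0, 16, 6, 15, 21],
    [14, 0, 10, 4, 16, 22, 14, 13, 13, 4, 4, 10, 13, 22, 10, 14, 16, 0, 22, 4, 16],
    [14, 17, 19, 19, 22, 6, 14, 13, 13, 6, 22, 6, 13, 0, 17, 14, 6, 22, 0, 17, 19],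
    [17, 15, 18, 4, 17, 20, 11, 15, 11, 4, 4, 20, 18, 11, 0, 20, 15, 4, 17, 0, 18],
    [19, 18, 16, 21, 5, 18, 12, 12, 16, 21, 5, 5, 0, 19, 12, 5, 21, 16, 19, 18, 0]]

/-- the copies of `K₅` in `K_21` -/
def F21 : List (List ℕ) :=
   [[0, 4, 6, 7, 12],
    [1, 5, 7, 8, 13],
    [2, 3, 8, 6, 14],
    [3, 9, 10, 17, 19],
    [4, 10, 11, 15, 20],
    [5, 11, 9, 16, 18]]

/-- the copies of `K₃,₃` in `K_21` -/
def B21 : List (List ℕ) :=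
   [[0, 1, 2, 9, 10, 11],
    [0, 9, 12, 8, 13, 15],
    [1, 10, 13, 6, 14, 16],
    [2, 11, 14, 7, 12, 17],
    [6, 8, 13, 11, 15, 19],
    [7, 6, 14, 9, 16, 20],
    [8, 7, 12, 10, 17, 18],
    [0, 6, 15, 5, 17, 18],
    [1, 7, 16, 3, 15, 19],
    [2, 8, 17, 4, 16, 20],
    [0, 4, 18, 1, 14, 19],
    [1, 5, 19, 2, 12, 20],
    [2, 3, 20, 0, 13, 18],
    [3, 14, 19, 5, 11, 15],
    [4, 12, 20, 3, 9, 16],
    [5, 13, 18, 4, 10, 17]]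

theorem chk_21 : Chk 21 6 0 16 T21 F21 [] B21 :=
  chk_spec (by decide +kernel)

theorem coarseness_21 : 22 ≤ coarseness (⊤ : SimpleGraph (Fin 21)) :=
  chk_21.bound

/-- colour table for `K_24` -/
def T24 : List (List ℕ) :=
   [[0, 1, 3, 24, 23, 21, 1, 12, 3, 23, 21, 24, 1, 15, 3, 12, 3, 1, 23, 21, 15, 12, 15, 24],
    [1, 0, 2, 22, 25, 21, 1, 2, 13, 25, 21, 22, 1, 2, 16, 2, 13, 1, 16, 21, 22, 25, 13, 16],
    [3, 2, 0, 22, 23, 26, 14, 2, 3, 23, 26, 22, 17, 2, 3, 2, 3, 14, 23, 17, 22, 17, 26, 14],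
    [24, 22, 22, 0, 24, 26, 10, 10, 10, 7, 26, 7, 24, 18, 4, 4, 22, 18, 7, 18, 4, 4, 26, 7],
    [23, 25, 23, 24, 0, 25, 10, 10, 10, 8, 8, 24, 5, 25, 19, 19, 5, 23, 5, 8, 19, 8, 5, 24],
    [21, 21, 26, 26, 25, 0, 10, 10, 10, 25, 9, 9, 20, 6, 26, 21, 20, 6, 20, 6, 9, 25, 9, 6],
    [1, 1, 14, 10, 10, 10, 0, 12, 14, 11, 11, 11, 1, 15, 16, 12, 14, 1, 16, 0, 15, 12, 15, 16],
    [12, 2, 2, 10, 10, 10, 12, 0, 13, 11, 11, 11, 17, 2, 16, 2, 13, 12, 16, 17, 0, 17, 13, 16],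
    [3, 13, 3, 10, 10, 10, 14, 13, 0, 11, 11, 11, 17, 15, 3, 13, 3, 14, 0, 17, 15, 17, 15, 14],
    [23, 25, 23, 7, 8, 25, 11, 11, 11, 0, 8, 7, 27, 25, 19, 19, 27, 23, 7, 8, 19, 8, 27, 7],
    [21, 21, 26, 26, 8, 9, 11, 11, 11, 8, 0, 9, 20, 28, 26, 21, 20, 28, 20, 8, 9, 8, 9, 28],
    [24, 22, 22, 7, 24, 9, 11, 11, 11, 7, 9, 0, 24, 18, 29, 29, 22, 18, 7, 18, 9, 29, 9, 7],
    [1, 1, 17, 24, 5, 20, 1, 17, 17, 27, 20, 24, 0, 20, 19, 19, 5, 1, 5, 27, 19, 27, 5, 24],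
    [15, 2, 2, 18, 25, 6, 15, 2, 15, 25, 28, 18, 20, 0, 18, 2, 20, 6, 20, 6, 28, 25, 28, 6],
    [3, 16, 3, 4, 19, 26, 16, 16, 3, 19, 26, 29, 19, 18, 0, 4, 3, 18, 29, 18, 4, 4, 26, 29],
    [12, 2, 2, 4, 19, 21, 12, 2, 13, 19, 21, 29, 19, 2, 4, 0, 13, 12, 29, 21, 4, 4, 13, 29],
    [3, 13, 3, 22, 5, 20, 14, 13, 3, 27, 20, 22, 5, 20, 3, 13, 0, 14, 5, 27, 22, 27, 5, 14],
    [1, 1, 14, 18, 23, 6, 1, 12, 14, 23, 28, 18, 1, 6, 18, 12, 14, 0, 23, 6, 28, 12, 28, 6],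
    [23, 16, 23, 7, 5, 20, 16, 16, 0, 7, 20, 7, 5, 20, 29, 29, 5, 23, 0, 0, 0, 29, 5, 7],
    [21, 21, 17, 18, 8, 6, 0, 17, 17, 8, 8, 18, 27, 6, 18, 21, 27, 6, 0, 0, 0, 8, 27, 6],
    [15, 22, 22, 4, 19, 9, 15, 0, 15, 19, 9, 9, 19, 28, 4, 4, 22, 28, 0, 0, 0, 4, 9, 28],
    [12, 25, 17, 4, 8, 25, 12, 17, 17, 8, 8, 29, 27, 25, 4, 4, 27, 12, 29, 8, 4, 0, 27, 29],
    [15, 13, 26, 26, 5, 9, 15, 13, 15, 27, 9, 9, 5, 28, 26, 13, 5, 28, 5, 27, 9, 27, 0, 28],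
    [24, 16, 14, 7, 24, 6, 16, 16, 14, 7, 28, 7, 24, 6, 29, 29, 14, 6, 7, 6, 28, 29, 28, 0]]

/-- the copies of `K₅` in `K_24` -/
def F24 : List (List ℕ) :=
   [[0, 1, 6, 12, 17],
    [1, 2, 7, 13, 15],
    [2, 0, 8, 14, 16],
    [3, 14, 15, 20, 21],
    [4, 12, 16, 18, 22],
    [5, 13, 17, 19, 23],
    [3, 9, 11, 18, 23],
    [4, 10, 9, 19, 21],
    [5, 11, 10, 20, 22]]

/-- the copies of `K₃,₃` in `K_24` -/
def B24 : List (List ℕ) :=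
   [[3, 4, 5, 6, 7, 8],
    [6, 7, 8, 9, 10, 11],
    [0, 6, 17, 7, 15, 21],
    [1, 7, 15, 8, 16, 22],
    [2, 8, 16, 6, 17, 23],
    [0, 6, 8, 13, 20, 22],
    [1, 7, 6, 14, 18, 23],
    [2, 8, 7, 12, 19, 21],
    [3, 11, 14, 13, 17, 19],
    [4, 9, 12, 14, 15, 20],
    [5, 10, 13, 12, 16, 18],
    [0, 1, 15, 5, 10, 19],
    [1, 2, 16, 3, 11, 20],
    [2, 0, 17, 4, 9, 18],
    [0, 4, 12, 3, 11, 23],
    [1, 5, 13, 4, 9, 21],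
    [2, 3, 14, 5, 10, 22],
    [9, 19, 21, 12, 16, 22],
    [10, 20, 22, 13, 17, 23],
    [11, 18, 23, 14, 15, 21]]

theorem chk_24 : Chk 24 9 0 20 T24 F24 [] B24 :=
  chk_spec (by decide +kernel)

theorem coarseness_24 : 29 ≤ coarseness (⊤ : SimpleGraph (Fin 24)) :=
  chk_24.bound

/-- colour table for `K_27` -/
def T27 : List (List ℕ) :=
   [[0, 14, 16, 26, 1, 14, 14, 23, 29, 23, 4, 11, 4, 16, 11, 1, 1, 16, 1, 26, 29, 4, 4, 23, 11, 26, 29],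
    [14, 0, 15, 15, 27, 2, 30, 15, 24, 12, 24, 5, 12, 5, 14, 14, 2, 2, 30, 2, 27, 24, 5, 5, 30, 12, 27],
    [16, 15, 0, 3, 16, 28, 25, 31, 16, 6, 13, 25, 15, 13, 6, 3, 15, 3, 28, 31, 3, 6, 25, 6, 28, 31, 13],
    [26, 15, 3, 0, 17, 19, 25, 17, 7, 19, 13, 25, 15, 13, 26, 3, 15, 3, 19, 7, 3, 26, 25, 17, 7, 7, 13],
    [1, 27, 16, 17, 0, 18, 8, 23, 18, 23, 17, 11, 27, 16, 11, 1, 1, 16, 1, 17, 8, 18, 27, 23, 11, 8, 8],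
    [14, 2, 28, 19, 18, 0, 19, 9, 24, 12, 24, 18, 12, 28, 14, 14, 2, 2, 9, 2, 18, 24, 19, 28, 9, 12, 9],
    [14, 30, 25, 25, 8, 19, 0, 33, 32, 19, 30, 32, 0, 20, 14, 14, 33, 33, 19, 20, 8, 30, 32, 20, 25, 8, 8],
    [23, 15, 31, 17, 23, 9, 33, 0, 34, 33, 17, 31, 15, 0, 21, 34, 15, 34, 9, 17, 21, 21, 31, 33, 9, 23, 9],
    [29, 24, 16, 7, 18, 24, 32, 34, 0, 29, 34, 18, 22, 16, 0, 32, 32, 16, 22, 7, 18, 34, 22, 29, 7, 7, 24],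
    [23, 12, 6, 19, 23, 12, 19, 33, 29, 0, 35, 37, 35, 35, 6, 37, 33, 33, 12, 0, 29, 6, 19, 6, 37, 23, 29],
    [4, 24, 13, 13, 17, 24, 30, 17, 34, 35, 0, 36, 4, 36, 36, 34, 35, 34, 30, 13, 0, 4, 4, 17, 30, 35, 24],
    [11, 5, 25, 25, 11, 18, 32, 31, 18, 37, 36, 0, 37, 5, 37, 32, 32, 36, 0, 31, 11, 18, 5, 5, 25, 31, 36],
    [4, 12, 15, 15, 27, 12, 0, 15, 22, 35, 4, 37, 0, 20, 22, 37, 35, 22, 12, 20, 27, 4, 4, 20, 37, 35, 27],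
    [16, 5, 13, 13, 16, 28, 20, 0, 16, 35, 36, 5, 20, 0, 21, 20, 35, 36, 28, 13, 21, 21, 5, 5, 28, 35, 36],
    [11, 14, 6, 26, 11, 14, 14, 21, 0, 6, 36, 37, 22, 21, 0, 37, 21, 36, 22, 26, 11, 6, 22, 6, 37, 26, 36],
    [1, 14, 3, 3, 1, 14, 14, 34, 32, 37, 34, 32, 37, 20, 37, 0, 1, 3, 1, 20, 3, 34, 32, 20, 10, 10, 10],
    [1, 2, 15, 15, 1, 2, 33, 15, 32, 33, 35, 32, 35, 35, 21, 1, 0, 2, 1, 2, 21, 21, 32, 33, 10, 10, 10],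
    [16, 2, 3, 3, 16, 2, 33, 34, 16, 33, 34, 36, 22, 36, 36, 3, 2, 0, 22, 2, 3, 34, 22, 33, 10, 10, 10],
    [1, 30, 28, 19, 1, 9, 19, 9, 22, 12, 30, 0, 12, 28, 22, 1, 1, 22, 0, 0, 0, 30, 19, 28, 9, 12, 9],
    [26, 2, 31, 7, 17, 2, 20, 17, 7, 0, 13, 31, 20, 13, 26, 20, 2, 2, 0, 0, 0, 26, 31, 17, 7, 7, 13],
    [29, 27, 3, 3, 8, 18, 8, 21, 18, 29, 0, 11, 27, 21, 11, 3, 21, 3, 0, 0, 0, 18, 27, 29, 11, 8, 8],
    [4, 24, 6, 26, 18, 24, 30, 21, 34, 6, 4, 18, 4, 21, 6, 34, 21, 34, 30, 26, 18, 0, 4, 6, 30, 26, 24],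
    [4, 5, 25, 25, 27, 19, 32, 31, 22, 19, 4, 5, 4, 5, 22, 32, 32, 22, 19, 31, 27, 4, 0, 5, 25, 31, 27],
    [23, 5, 6, 17, 23, 28, 20, 33, 29, 6, 17, 5, 20, 5, 6, 20, 33, 33, 28, 17, 29, 6, 5, 0, 28, 23, 29],
    [11, 30, 28, 7, 11, 9, 25, 9, 7, 37, 30, 25, 37, 28, 37, 10, 10, 10, 9, 7, 11, 30, 25, 28, 0, 7, 9],
    [26, 12, 31, 7, 8, 12, 8, 23, 7, 23, 35, 31, 35, 35, 26, 10, 10, 10, 12, 7, 8, 26, 31, 23, 7, 0, 8],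
    [29, 27, 13, 13, 8, 9, 8, 9, 24, 29, 24, 36, 27, 36, 36, 10, 10, 10, 9, 13, 8, 24, 27, 29, 9, 8, 0]]

/-- the copies of `K₅` in `K_27` -/
def F27 : List (List ℕ) :=
   [[0, 4, 15, 16, 18],
    [1, 5, 16, 17, 19],
    [2, 3, 17, 15, 20],
    [0, 10, 12, 21, 22],
    [1, 11, 13, 22, 23],
    [2, 9, 14, 23, 21],
    [3, 8, 19, 24, 25],
    [4, 6, 20, 25, 26],
    [5, 7, 18, 26, 24]]

/-- the copies of `K₃,₃` in `K_27` -/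
def B27 : List (List ℕ) :=
   [[15, 16, 17, 24, 25, 26],
    [0, 4, 20, 11, 14, 24],
    [1, 5, 18, 9, 12, 25],
    [2, 3, 19, 10, 13, 26],
    [0, 14, 15, 1, 5, 6],
    [1, 12, 16, 2, 3, 7],
    [2, 13, 17, 0, 4, 8],
    [3, 10, 19, 4, 7, 23],
    [4, 11, 20, 5, 8, 21],
    [5, 9, 18, 3, 6, 22],
    [6, 12, 15, 13, 19, 23],
    [7, 13, 16, 14, 20, 21],
    [8, 14, 17, 12, 18, 22],
    [0, 4, 25, 7, 9, 23],
    [1, 5, 26, 8, 10, 21],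
    [2, 3, 24, 6, 11, 22],
    [0, 14, 21, 3, 19, 25],
    [1, 12, 22, 4, 20, 26],
    [2, 13, 23, 5, 18, 24],
    [0, 9, 23, 8, 20, 26],
    [1, 10, 21, 6, 18, 24],
    [2, 11, 22, 7, 19, 25],
    [6, 15, 16, 8, 11, 22],
    [7, 16, 17, 6, 9, 23],
    [8, 17, 15, 7, 10, 21],
    [9, 16, 25, 10, 12, 13],
    [10, 17, 26, 11, 13, 14],
    [11, 15, 24, 9, 14, 12]]

theorem chk_27 : Chk 27 9 0 28 T27 F27 [] B27 :=
  chk_spec (by decide +kernel)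

theorem coarseness_27 : 37 ≤ coarseness (⊤ : SimpleGraph (Fin 27)) :=
  chk_27.bound

end Pool.Agent.Coarse
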